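import Pool.Agent.H228.HQ.F5

/-!
# Hesse pencils through constant elliptic curves, `q` congruent to `2` modulo three

Let `k` be a finite field with `q` elements, `q` congruent to `2` modulo three, of characteristic at
least five, and let `E_0 : y ^ 2 = x ^ 3 + a x + b` be an elliptic curve over `k` whose trace is not
divisible by three (neither `E_0` nor its quadratic twist has a `k`-rational point of order three). The
members of the pencil of cubics generated by `E_0` and its Hessian are, in short Weierstrass form, the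
curves `E_s : y ^ 2 = x ^ 3 + a(s) x + b(s)` below, with discriminant that of `E_0` times `D(s) ^ 3`.
-/

set_option autoImplicit false
set_option linter.all false
set_option maxHeartbeats 4000000

open Polynomial FF Module Pool.Agent.W343.BSD Pool.Agent.W313.Gr

namespace Pool.Agent.Results.MP_ff7320_nt.HessePencilsTwoModThree

section defs

/-- The coefficient of `x` of `E_s`. -/
def coeffA {R : Type} [CommRing R] (a b s : R) : R :=
  a - 18 * b * s - 18 * a ^ 2 * s ^ 2 + 54 * a * b * s ^ 3 - 27 * (a ^ 3 + 9 * b ^ 2) * s ^ 4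

/-- The constant coefficient of `E_s`. -/
def coeffB {R : Type} [CommRing R] (a b s : R) : R :=
  b + 4 * a ^ 2 * s - 45 * a * b * s ^ 2 + 270 * b ^ 2 * s ^ 3 + 135 * a ^ 2 * b * s ^ 4 +
    (486 * a * b ^ 2 + 108 * a ^ 4) * s ^ 5 - (1458 * b ^ 3 + 243 * a ^ 3 * b) * s ^ 6

/-- The polynomial `D(s)` whose zeros are the singular members. -/
def sing {R : Type} [CommRing R] (a b s : R) : R :=
  1 + 18 * a * s ^ 2 - 108 * b * s ^ 3 - 27 * a ^ 2 * s ^ 4

/-- The coefficients over an extension `K` of `k`. -/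
def A {k K : Type} [Field k] [Field K] [Algebra k K] (a b : k) (s : K) : K :=
  coeffA (algebraMap k K a) (algebraMap k K b) s

def B {k K : Type} [Field k] [Field K] [Algebra k K] (a b : k) (s : K) : K :=
  coeffB (algebraMap k K a) (algebraMap k K b) s

def D {k K : Type} [Field k] [Field K] [Algebra k K] (a b : k) (s : K) : K :=
  sing (algebraMap k K a) (algebraMap k K b) s

/-- The number of elements of `k` minus the number of affine points of `y ^ 2 = x ^ 3 + a x + b`
over `k`, that is `q + 1 - |E_0(k)|`. -/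
noncomputable def constTrace (k : Type) [Field k] (a b : k) : ℤ :=
  (Nat.card k : ℤ) - Nat.card {P : k × k // P.2 ^ 2 = P.1 ^ 3 + a * P.1 + b}

/-- `E_0` is an elliptic curve and three does not divide its trace. -/
structure IsBase (k : Type) [Field k] (a b : k) : Prop where
  elliptic : 4 * a ^ 3 + 27 * b ^ 2 ≠ 0
  trace : ¬ (3 : ℤ) ∣ constTrace k a b

/-- `y ^ 2 = x ^ 3 + a x + b` is an elliptic curve with a non-constant `j`-invariant
`6912 a ^ 3 / (4 a ^ 3 + 27 b ^ 2)`. -/
def NonIsotrivial (k : Type) {K : Type} [Field k] [Field K] [Algebra k K] (a b : K) : Prop :=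
  4 * a ^ 3 + 27 * b ^ 2 ≠ 0 ∧
    ∀ c : k, 6912 * a ^ 3 / (4 * a ^ 3 + 27 * b ^ 2) ≠ algebraMap k K c

/-- The order of vanishing of `L(T, E)` at `T = 1 / |k|` is zero and the value there is a unit at three:
if `L(T, E)` is `(1 - |k| T) ^ m G(T)` with `G` in `ℤ[T]` then `m = 0`, and `G(1 / |k|)` is not zero and its
`3`-adic valuation is zero; if `L(T, E)` is a polynomial with a zero of order exactly `r` then `r = 0`, and
the rank is zero if it is at most `r`. -/
def OrderZero (k : Type) {K : Type} [Field k] [Field K] [Algebra k K] (a b : K) : Prop :=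
  (∀ (m : ℕ) (G : ℤ[X]),
    S.Lfun k a b = (((1 - C (Nat.card k : ℤ) * X) ^ m * G : ℤ[X]) : PowerSeries ℤ) →
      m = 0 ∧ (G.map (Int.castRingHom ℚ)).eval ((Nat.card k : ℕ) : ℚ)⁻¹ ≠ 0 ∧
        padicValRat 3 ((G.map (Int.castRingHom ℚ)).eval ((Nat.card k : ℕ) : ℚ)⁻¹) = 0) ∧
    ∀ r : ℕ, HasOrder k a b r → r = 0 ∧ (rank a b ≤ r → rank a b = 0)

/-- `K` is the function field of a curve over `k`, `s` is not in `k`, the reduction modulo three of the
numerator of the zeta function is prime to `X ^ 4 + 1`, and no zero of `D(s)` has degree divisible by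
eight. -/
structure Good (k K : Type) [Field k] [Field K] [Algebra k K] (a b : k) (s : K) : Prop where
  curve : IsCurveField k K
  nonconst : ∀ c : k, s ≠ algebraMap k K c
  numerator : ∀ P : ℤ[X], S.IsZetaNum k K P →
    IsCoprime (P.map (Int.castRingHom (ZMod 3))) (X ^ 4 + 1)
  zeros : ∀ v : Place k K, 0 < v.ord (D a b s) → ¬ 8 ∣ S.deg v

/-- The place `w` of `L` lies over the place `v` of `K` with ramification index `e`. -/
def LiesOver {k K L : Type} [Field k] [Field K] [Algebra k K] [Field L] [Algebra k L] [Algebra K L]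
    (w : Place k L) (v : Place k K) (e : ℕ) : Prop :=
  0 < e ∧ ∀ f : K, w.ord (algebraMap K L f) = e * v.ord f

end defs

section proof

open Pool.Agent.H228.HP (eA eB eD Om t3_iff)
open Pool.Agent.H228.HQ (C2)

theorem eA_eq {k K : Type} [Field k] [Field K] [Algebra k K] (a b : k) (s : K) :
    Pool.Agent.H228.HP.eA k a b s = A a b s := by
  unfold Pool.Agent.H228.HP.eA Pool.Agent.H228.HP.hA A coeffA
  ring

theorem eB_eq {k K : Type} [Field k] [Field K] [Algebra k K] (a b : k) (s : K) :
    Pool.Agent.H228.HP.eB k a b s = B a b s := by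
  unfold Pool.Agent.H228.HP.eB Pool.Agent.H228.HP.hB B coeffB
  ring

theorem eD_eq {k K : Type} [Field k] [Field K] [Algebra k K] (a b : k) (s : K) :
    Pool.Agent.H228.HP.eD k a b s = D a b s := by
  unfold Pool.Agent.H228.HP.eD Pool.Agent.H228.HP.hD D sing
  ring

theorem dvd_of_mod {k : Type} [Field k] (h : Nat.card k % 3 = 2) : 3 ∣ Nat.card k + 1 := by
  omega

theorem two_three {k : Type} [Field k] (h : (6 : k) ≠ 0) : (2 : k) ≠ 0 ∧ (3 : k) ≠ 0 :=
  ⟨fun e => h (by linear_combination 3 * e), fun e => h (by linear_combination 2 * e)⟩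

theorem cst {k : Type} [Field k] [Finite k] (h6 : (6 : k) ≠ 0) (hq : Nat.card k % 3 = 2) {a b : k}
    (h : IsBase k a b) : C2 k a b := by
  obtain ⟨h2, h3⟩ := two_three h6
  refine ⟨h2, h3, dvd_of_mod hq, h.elliptic, fun x hx => h.trace ?_⟩
  exact (ZMod.intCast_zmod_eq_zero_iff_dvd _ 3).1
    (Pool.Agent.H228.HQ.tr_of_root h2 (dvd_of_mod hq) h.elliptic hx)

theorem exists_base {k : Type} [Field k] [Finite k] (h6 : (6 : k) ≠ 0)
    (hq : Nat.card k % 3 = 2) : ∃ a b : k, IsBase k a b := by
  obtain ⟨h2, h3⟩ := two_three h6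
  obtain ⟨a, b, h⟩ := Pool.Agent.H228.HQ.exists_c2 h2 h3 (dvd_of_mod hq)
  refine ⟨a, b, h.disc, fun h4 => ?_⟩
  have h5 : ((Pool.Agent.H228.HP.tr k a b : ℤ) : ZMod 3) = 0 :=
    (ZMod.intCast_zmod_eq_zero_iff_dvd _ 3).2 h4
  obtain ⟨x, y, hx, -⟩ := (Pool.Agent.H228.HQ.t3_iff_tr h2 (dvd_of_mod hq) h.disc).2 h5
  exact h.nr x hx

theorem eval_ne_iff (P : ℤ[X]) : IsCoprime (P.map (Int.castRingHom (ZMod 3))) (X ^ 4 + 1) ↔
    ∀ z : Om, z ^ 4 = -1 → (P.map (Int.castRingHom Om)).eval z ≠ 0 := by
  rw [Polynomial.isCoprime_iff_aeval_ne_zero_of_isAlgClosed (ZMod 3) Om]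
  have e : ∀ z : Om, aeval z (P.map (Int.castRingHom (ZMod 3))) =
      (P.map (Int.castRingHom Om)).eval z := by
    intro z
    rw [aeval_def, eval₂_eq_eval_map, Polynomial.map_map]
    congr 2
  have e2 : ∀ z : Om, aeval z (X ^ 4 + 1 : (ZMod 3)[X]) = z ^ 4 + 1 := by
    intro z
    simp
  constructor
  · intro h z hz
    rcases h z with h1 | h1
    · rwa [e] at h1
    · rw [e2, hz] at h1
      exact absurd (by ring) h1
  · intro h z
    by_cases hz : z ^ 4 = -1
    · left
      rw [e]
      exact h z hz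
    · right
      rw [e2]
      intro h1
      apply hz
      linear_combination h1

theorem nonIso {k K : Type} [Field k] [Finite k] [Field K] [Algebra k K] (h6 : (6 : k) ≠ 0)
    (hq : Nat.card k % 3 = 2) {a b : k} (h : IsBase k a b) {s : K} (hG : Good k K a b s) :
    NonIsotrivial k (A a b s) (B a b s) := by
  haveI : FF.IsFF k K := ⟨hG.curve.essFiniteType, hG.curve.trdeg_eq_one⟩
  have hr : constDeg k K = 1 := Pool.Agent.TH958.T4.constDeg_eq_one hG.curve.algClosed
  have htr := Pool.Agent.TH180.R2.transc hr hG.nonconst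
  have hC := cst h6 hq h
  have hΔ := hC.ab_ne (Pool.Agent.H228.HP.eD_ne (a := a) (b := b) htr)
  rw [eA_eq, eB_eq] at hΔ
  refine ⟨hΔ, fun c hc => ?_⟩
  have h7 := Pool.Agent.H228.HQ.noniso2 hC htr c
  rw [eA_eq, eB_eq] at h7
  exact h7 ((div_eq_iff hΔ).1 hc)

theorem orderZero {k K : Type} [Field k] [Finite k] [Field K] [Algebra k K] (h6 : (6 : k) ≠ 0)
    (hq : Nat.card k % 3 = 2) {a b : k} (h : IsBase k a b) {s : K} (hG : Good k K a b s) :
    OrderZero k (A a b s) (B a b s) := by
  haveI : FF.IsFF k K := ⟨hG.curve.essFiniteType, hG.curve.trdeg_eq_one⟩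
  obtain ⟨P, hP, -⟩ := exists_num_rel k K
  have hP' := (S.isZetaNum_iff P).2 hP
  have hm0 := (eval_ne_iff P).1 (hG.numerator P hP')
  have hr : constDeg k K = 1 := Pool.Agent.TH958.T4.constDeg_eq_one hG.curve.algClosed
  have htr := Pool.Agent.TH180.R2.transc hr hG.nonconst
  have hw : ∀ v : Place k K, 0 < v.ord (eD k a b s) → ¬ 8 ∣ v.deg := by
    intro v hv
    rw [← S.deg_eq]
    exact hG.zeros v (by rw [← eD_eq]; exact hv)
  have hV : ∀ (m : ℕ) (G : ℤ[X]), S.Lfun k (A a b s) (B a b s) =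
      (((1 - C (Nat.card k : ℤ) * X) ^ m * G : ℤ[X]) : PowerSeries ℤ) →
      m = 0 ∧ (G.map (Int.castRingHom ℚ)).eval ((Nat.card k : ℕ) : ℚ)⁻¹ ≠ 0 ∧
        padicValRat 3 ((G.map (Int.castRingHom ℚ)).eval ((Nat.card k : ℕ) : ℚ)⁻¹) = 0 := by
    intro m G hL
    rw [← eA_eq, ← eB_eq] at hL
    exact Pool.Agent.H228.HQ.order_val2 (cst h6 hq h) (Pool.Agent.H228.HP.s_ne htr)
      (Pool.Agent.H228.HP.eD_ne htr) hP hr hm0 hw hL
  have hU : ∀ m : ℕ, S.VanishesTo k (A a b s) (B a b s) m → m ≤ 0 := by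
    rintro m ⟨G, hL⟩
    exact (hV m G hL).1.le
  refine ⟨hV, fun r hr => ?_⟩
  obtain ⟨h1, h2⟩ := Pool.Agent.TH180.R4.concl4 (R := 0) (by rw [Nat.cast_zero]; exact zero_le) hU
    r hr
  refine ⟨Nat.le_zero.1 h1, fun h3 => ?_⟩
  have := (h2 h3).2
  rw [this, Nat.cast_zero]

theorem nonconst_up {k K L : Type} [Field k] [Field K] [Algebra k K] [Field L] [Algebra k L]
    [Algebra K L] [IsScalarTower k K L] {s : K} (hs : ∀ c : k, s ≠ algebraMap k K c) (c : k) :
    algebraMap K L s ≠ algebraMap k L c := by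
  intro h
  apply hs c
  apply (algebraMap K L).injective
  rw [h, IsScalarTower.algebraMap_apply k K L]

theorem num_one {k : Type} [Field k] [Finite k] {P : ℤ[X]} (hP : S.IsZetaNum k (RatFunc k) P) :
    P = 1 := by
  have h1 := Pool.Agent.W309.RF.isZetaNum_rat (k := k)
  haveI : FF.IsFF k (RatFunc k) := ⟨Pool.Agent.TH958.T4.isCurveField_rat.essFiniteType,
    Pool.Agent.TH958.T4.isCurveField_rat.trdeg_eq_one⟩
  unfold S.IsZetaNum at hP h1
  rw [← h1] at hP
  set E := eulerProd (fun v : FF.Place k (RatFunc k) => S.deg v)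
    (fun v => (1 - PowerSeries.X ^ S.deg v : PowerSeries ℤ)) with hE
  have hE0 : E ≠ 0 := by
    intro h
    rw [h, mul_zero] at h1
    have h2 := congrArg (PowerSeries.constantCoeff (R := ℤ)) h1
    have h3 := (constDeg_pos k (RatFunc k)).ne'
    simp [h3] at h2
  have h2 := mul_right_cancel₀ hE0 hP
  exact Polynomial.coe_injective ℤ h2

theorem D_up {k K L : Type} [Field k] [Finite k] [Field K] [Algebra k K] [FF.IsFF k K] [Field L]
    [Algebra k L] [Algebra K L] [IsScalarTower k K L] [FF.IsFF k L] [FiniteDimensional K L]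
    [IsGalois K L] (hodd : Odd (finrank K L)) (a b : k) (s : K)
    (h : ∀ v : Place k K, 0 < v.ord (D a b s) → ¬ 8 ∣ S.deg v) (w : Place k L)
    (hw : 0 < w.ord (D a b (algebraMap K L s))) : ¬ 8 ∣ S.deg w := by
  rw [← eD_eq, Pool.Agent.H228.HP.eD_map] at hw
  exact Pool.Agent.H228.HQ.odd_zero8 (k := k) (K := K) (L := L) hodd
    (D := Pool.Agent.H228.HP.eD k a b s) (by rw [eD_eq]; exact h) w hw

end proof

/-- Let `k` be a finite field with `q` elements, of characteristic at least five, `q` congruent to `2`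
modulo three. There are elliptic curves `E_0 : y ^ 2 = x ^ 3 + a x + b` over `k` with trace not divisible
by three; let `E_0` be one of them. For the function field `K` of a curve over `k` and `s` in `K` not in `k`
let `E_s : y ^ 2 = x ^ 3 + A x + B`, where `A = a - 18 b s - 18 a ^ 2 s ^ 2 +
54 a b s ^ 3 - 27 (a ^ 3 + 9 b ^ 2) s ^ 4` and `B = b + 4 a ^ 2 s - 45 a b s ^ 2 + 270 b ^ 2 s ^ 3 +
135 a ^ 2 b s ^ 4 + (486 a b ^ 2 + 108 a ^ 4) s ^ 5 - (1458 b ^ 3 + 243 a ^ 3 b) s ^ 6`. Call `(K, s)` good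
if the reduction modulo three of the numerator of the zeta function of `K` is prime to `X ^ 4 + 1` and no
zero of `D = 1 + 18 a s ^ 2 - 108 b s ^ 3 - 27 a ^ 2 s ^ 4` has degree divisible by eight.

(1) If `(K, s)` is good, `E_s` has a non-constant `j`-invariant, the order of vanishing of
`L(T, E_s / K)` at `1 / q` is zero, `L(1 / q, E_s / K)` is a unit at three, and the rank is zero if it is at
most the order. If `(K, s)` is good and `L` is a Galois extension of `K` with field of constants `k`, then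
`(L, s)` is good in the following cases: the degree is a power of three and `L` is unramified outside a
finite set of places of `K` of degree not divisible by eight; the degree is odd and the numerator of the
zeta function of `L` modulo three is prime to `X ^ 4 + 1`.

(2) `(k(t), t)` is good, and for all primes `l ≠ 2` which divide `q - 1` there is `c` in `k`, not zero,
such that `(k(t), c t ^ (l ^ j))` is good for all `j`. -/
theorem result (k : Type) [Field k] [Finite k] (h6 : (6 : k) ≠ 0) (hq : Nat.card k % 3 = 2) :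
    (∃ a b : k, IsBase k a b) ∧ ∀ a b : k, IsBase k a b →
      (∀ (K : Type) [Field K] [Algebra k K] (s : K), Good k K a b s →
        NonIsotrivial k (A a b s) (B a b s) ∧ OrderZero k (A a b s) (B a b s) ∧
        ∀ (L : Type) [Field L] [Algebra k L] [Algebra K L] [IsScalarTower k K L]
          [FiniteDimensional K L] [IsGalois K L], IsCurveField k L →
          (∀ (n : ℕ) (T : Finset (Place k K)), finrank K L = 3 ^ n → (∀ v ∈ T, ¬ 8 ∣ S.deg v) →
            (∀ (v : Place k K) (w : Place k L) (e : ℕ), v ∉ T → LiesOver w v e → e = 1) →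
            Good k L a b (algebraMap K L s)) ∧
          (Odd (finrank K L) → (∀ P : ℤ[X], S.IsZetaNum k L P →
            IsCoprime (P.map (Int.castRingHom (ZMod 3))) (X ^ 4 + 1)) →
            Good k L a b (algebraMap K L s))) ∧
      Good k (RatFunc k) a b (algebraMap k[X] (RatFunc k) X) ∧
      ∀ l : ℕ, l.Prime → l ≠ 2 → l ∣ Nat.card k - 1 → ∃ c : k, c ≠ 0 ∧ ∀ j : ℕ,
        Good k (RatFunc k) a b (algebraMap k[X] (RatFunc k) (C c * X ^ l ^ j)) := by
  classical
  have hrat : ∀ (a b : k) (f : k[X]), 0 < f.natDegree →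
      (∀ v : Place k (RatFunc k), 0 < v.ord (Pool.Agent.H228.HP.eD k a b (Pool.Agent.W309.RF.A f)) →
        ¬ 8 ∣ S.deg v) →
      Good k (RatFunc k) a b (algebraMap k[X] (RatFunc k) f) := by
    intro a b f hf h0
    refine ⟨Pool.Agent.TH958.T4.isCurveField_rat, ?_, ?_, ?_⟩
    · intro c hz
      have h1 : f = C c := RatFunc.algebraMap_injective k hz
      rw [h1, natDegree_C] at hf
      exact lt_irrefl _ hf
    · intro P hP
      rw [num_one hP, Polynomial.map_one]
      exact isCoprime_one_left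
    · intro v hv
      rw [← eD_eq] at hv
      exact h0 v hv
  refine ⟨exists_base h6 hq, fun a b h => ⟨?_, ?_, ?_⟩⟩
  · intro K _ _ s hG
    haveI : FF.IsFF k K := ⟨hG.curve.essFiniteType, hG.curve.trdeg_eq_one⟩
    refine ⟨nonIso h6 hq h hG, orderZero h6 hq h hG, ?_⟩
    intro L _ _ _ _ _ _ hL
    haveI : FF.IsFF k L := ⟨hL.essFiniteType, hL.trdeg_eq_one⟩
    have hrK : constDeg k K = 1 := Pool.Agent.TH958.T4.constDeg_eq_one hG.curve.algClosed
    have hrL : constDeg k L = 1 := Pool.Agent.TH958.T4.constDeg_eq_one hL.algClosed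
    refine ⟨?_, ?_⟩
    · intro n T hn hT hun
      refine ⟨hL, nonconst_up hG.nonconst, ?_, ?_⟩
      · intro P' hP'
        obtain ⟨P, hP, -⟩ := exists_num_rel k K
        rw [eval_ne_iff]
        intro z hz
        exact Pool.Agent.H228.HQ.num_stable (K := K) (L := L) hP hrK
          ((S.isZetaNum_iff P').1 hP') hrL (Pool.Agent.H228.HQ.q_om2 (cst h6 hq h)) hn T
          (fun v w e ho hv => hun v w e hv ho)
          (fun v hv => by rw [← S.deg_eq]; exact hT v hv) hz
          ((eval_ne_iff P).1 (hG.numerator P ((S.isZetaNum_iff P).2 hP)) z hz)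
      · exact D_up (by rw [hn]; exact (by decide : Odd 3).pow) a b s hG.zeros
    · intro hodd hnum
      exact ⟨hL, nonconst_up hG.nonconst, hnum, D_up hodd a b s hG.zeros⟩
  · exact hrat a b X (by rw [natDegree_X]; exact one_pos)
      (Pool.Agent.H228.HQ.base8 (cst h6 hq h))
  · intro l hl hl2 hld
    obtain ⟨c, hc, hj⟩ := Pool.Agent.H228.HQ.exists_binom8 (cst h6 hq h) hl hl2 hld
    refine ⟨c, hc, fun j => hrat a b _ ?_ (hj j)⟩
    rw [natDegree_C_mul_X_pow _ _ hc]
    exact pow_pos hl.pos j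

end Pool.Agent.Results.MP_ff7320_nt.HessePencilsTwoModThree
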